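import Pool.Agent.P8H58.DF.Main

/-!
# Dade's ordinary conjecture for groups with a central `O_p(G)`: few defects decide

Let `O` be a valuation ring of `ℂ` whose maximal ideal contains `p`; blocks, defect groups and block
induction are defined by central characters modulo the maximal ideal of `O`
(`Pool.Agent.H254R3.IN`). Let `G` be a finite group such that `Z = O_p(G)` is central, and let `B` be a
block of `G` with defect groups larger than `Z`. Let `S_d(B)` be Dade's alternating sum of the numbers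
`k^d(B_σ)` over the classes of the chains `σ` of `p`-subgroups which start at `Z`, and
`P_B = ∑_d S_d(B) t^d`.

Proof. Let `A = G / Z`. The sum `|A| P_B` is the sum over all chains of nontrivial `p`-subgroups of `A` of
the generating functions for the preimages of their stabilisers. The functional
`φ ↦ ∑_σ (-1)^|σ| φ(G_σ)` of a direct product is the product of the functionals of the factors, and so
`P_{B ⊗ B'} = P_B P_{B'}`, where `O_p(G × G') = Z × Z'`. There are no characters of defect zero, so that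
`P_B(0) = 0`. If `P_B` has the degree `a > 0` and the leading coefficient `s`, then the sum for
`B ⊗ ⋯ ⊗ B` (`m` factors) and the defect `m a` is `s^m`; the same is true modulo a prime. If the upper
bounds hold for all defects, then `|P_B| ≤ 1` on the unit circle, by one-sided bounds for the
coefficients of `P_B^{2m}` and `P_B(1)^{2m} ≥ 0`, and Parseval's identity shows that `P_B` is zero or
`± t^a`.
-/

set_option autoImplicit false

noncomputable section

namespace Pool.Agent.Results.MP_3f89b9_al.CentralCore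

open Pool.Agent.Y63.KR (conjSub chainStabilizer)
open Pool.Agent.Q90.WR (IndS bxS)
open Pool.Agent.H254R3.IN (IsBlock IsDefectGroup)
open scoped Polynomial

/-- A chain of `p`-subgroups starting at `Z`: the set `{D_1, ..., D_n}` of the members of
`Z < D_1 < ... < D_n`. -/
structure IsZChain (p : ℕ) {G : Type} [Group G] (Z : Subgroup G) (σ : Set (Subgroup G)) : Prop where
  /-- `p`-subgroups larger than `Z` -/
  mem : ∀ P ∈ σ, IsPGroup p P ∧ Z < P
  /-- totally ordered -/
  chain : IsChain (· ≤ ·) σ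

/-- Two chains are conjugate in `G`. -/
def Conj (p : ℕ) {G : Type} [Group G] (Z : Subgroup G)
    (σ τ : {σ : Set (Subgroup G) // IsZChain p Z σ}) : Prop :=
  ∃ g : G, τ.1 = conjSub g '' σ.1

/-- The alternating sum `∑_σ (-1)^|σ| f(G_σ)` over representatives `σ` of the `G`-classes of the chains
of `p`-subgroups starting at `Z`; `G_σ` is the intersection of the normalisers of the members. -/
def alt (p : ℕ) {G : Type} [Group G] (Z : Subgroup G) (f : Subgroup G → ℤ) : ℤ :=
  ∑ᶠ c : Quot (Conj p Z), (-1) ^ c.out.1.ncard * f (chainStabilizer c.out.1)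

/-- `k^d(B_σ)` for `G_σ = H`: the number of the irreducible characters `θ` of the subgroup `H` of
`p`-defect `d` with `bl(θ)^G = B`. -/
def kB (p : ℕ) (O : ValuationSubring ℂ) (d : ℕ) {G : Type} [Group G] (B : Set (G → ℂ))
    (H : Subgroup G) : ℕ :=
  Nat.card {θ : H → ℂ // θ ∈ IndS O B (Subtype.val : H → G) ∧
    ∃ n : ℕ, θ 1 = (n : ℂ) ∧ n.factorization p + d = (Nat.card H).factorization p}

/-- Dade's alternating sum `S_d(B) = ∑_σ (-1)^|σ| k^d(B_σ)` over the chains starting at `Z`. -/
def S (p : ℕ) (O : ValuationSubring ℂ) (d : ℕ) {G : Type} [Group G] (Z : Subgroup G)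
    (B : Set (G → ℂ)) : ℤ :=
  alt p Z (fun H => (kB p O d B H : ℤ))

/-- The alternating sum `∑_σ (-1)^|σ| k(B_σ)` of Knörr and Robinson over the chains starting at `Z`:
`k(B_σ)` is the number of the irreducible characters `θ` of `G_σ` with `bl(θ)^G = B`. -/
def KR (p : ℕ) (O : ValuationSubring ℂ) {G : Type} [Group G] (Z : Subgroup G)
    (B : Set (G → ℂ)) : ℤ :=
  alt p Z (fun H => (Nat.card (IndS O B (Subtype.val : H → G)) : ℤ))

/-- The hypotheses of Dade's ordinary conjecture: `G` is a finite group, `Z = O_p(G)` is central, and `B`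
is a block of `G` with a defect group which contains `Z` properly. -/
structure Adm (p : ℕ) (O : ValuationSubring ℂ) (G : Type) [Group G] (Z : Subgroup G)
    (B : Set (G → ℂ)) : Prop where
  /-- finite -/
  fin : Finite G
  /-- `Z` is central -/
  central : Z ≤ Subgroup.center G
  /-- `Z` is a `p`-group -/
  pgr : IsPGroup p Z
  /-- `Z` contains all normal `p`-subgroups -/
  core : ∀ P : Subgroup G, P.Normal → IsPGroup p P → P ≤ Z
  /-- `B` is a block -/
  block : IsBlock O B
  /-- the defect groups -/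
  defect : ∃ D : Subgroup G, IsDefectGroup p O B D ∧ Z < D

/-- Dade's ordinary conjecture for the pairs `(G, B)` in the class `C`. -/
def Dade (p : ℕ) (O : ValuationSubring ℂ) (C : (G : Type) → Group G → Set (G → ℂ) → Prop) : Prop :=
  ∀ (G : Type) [i : Group G] (Z : Subgroup G) (B : Set (G → ℂ)), C G i B → Adm p O G Z B →
    ∀ d, S p O d Z B = 0

/-- The bounds `S_d(B) ≤ c |G|^ε`, with `c` depending on `ε > 0` only, for `d` in `D` and the pairs
`(G, B)` in `C` with `|G| > n`. -/
def Bounds (p : ℕ) (O : ValuationSubring ℂ) (C : (G : Type) → Group G → Set (G → ℂ) → Prop)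
    (D : Set ℕ) (n : ℕ) : Prop :=
  ∀ ε : ℝ, 0 < ε → ∃ c : ℝ, ∀ (G : Type) [i : Group G] (Z : Subgroup G) (B : Set (G → ℂ)),
    C G i B → Adm p O G Z B → n < Nat.card G → ∀ d ∈ D,
      (S p O d Z B : ℝ) ≤ c * (Nat.card G : ℝ) ^ ε

theorem chain_iff {p : ℕ} {G : Type} [Group G] {Z : Subgroup G} (σ : Set (Subgroup G)) :
    IsZChain p Z σ ↔ Pool.Agent.P8H58.DF.IsZChain p Z σ :=
  ⟨fun h => ⟨h.1, h.2⟩, fun h => ⟨h.1, h.2⟩⟩

theorem alt_eq (p : ℕ) {G : Type} [Group G] (Z : Subgroup G) (f : Subgroup G → ℤ) :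
    alt p Z f = Pool.Agent.P8H58.DF.zAlt p Z f := by
  have h : (IsZChain p Z) = (Pool.Agent.P8H58.DF.IsZChain p Z) :=
    funext fun σ => propext (chain_iff σ)
  unfold alt Pool.Agent.P8H58.DF.zAlt Conj Pool.Agent.P8H58.DF.ZConj
  rw [h]

theorem S_eq (p : ℕ) (O : ValuationSubring ℂ) (d : ℕ) {G : Type} [Group G] (Z : Subgroup G)
    (B : Set (G → ℂ)) : S p O d Z B = Pool.Agent.P8H58.DF.zDef p O d Z B := alt_eq p Z _

theorem KR_eq (p : ℕ) (O : ValuationSubring ℂ) {G : Type} [Group G] (Z : Subgroup G)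
    (B : Set (G → ℂ)) : KR p O Z B = Pool.Agent.P8H58.DF.zKR p O Z B := alt_eq p Z _

theorem Adm.to {p : ℕ} {O : ValuationSubring ℂ} {G : Type} [Group G] {Z : Subgroup G}
    {B : Set (G → ℂ)} (h : Adm p O G Z B) : Pool.Agent.P8H58.DF.CAdm p O G Z B :=
  ⟨h.1, h.2, h.3, h.4, h.5, h.6⟩

theorem Adm.of {p : ℕ} {O : ValuationSubring ℂ} {G : Type} [Group G] {Z : Subgroup G}
    {B : Set (G → ℂ)} (h : Pool.Agent.P8H58.DF.CAdm p O G Z B) : Adm p O G Z B :=
  ⟨h.1, h.2, h.3, h.4, h.5, h.6⟩

/-- **Dade's ordinary conjecture, for groups with a central `O_p(G)`: few defects decide.** Let `C` be a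
class of pairs `(G, B)` closed under `((G, B), (G', B')) ↦ (G × G', B ⊗ B')`, for example the class of
all pairs, or of all pairs such that `G` is perfect, or such that `B` is a principal block. Let `D` be a
set of integers which contains a positive multiple of every positive integer, and let `n` be an integer.
Here `(G, Z, B)` is as in Dade's conjecture (`Adm`): `Z = O_p(G)` is central, and `B` has defect groups
larger than `Z`.
(1) `S_0(B) = 0`; `(G × G', Z × Z', B ⊗ B')` is as in Dade's conjecture if `(G, Z, B)` and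
`(G', Z', B')` are, and `S_d(B ⊗ B') = ∑_{i + j = d} S_i(B) S_j(B')`. Hence all sums for `B ⊗ B'` are
zero only if all sums for `B` or all sums for `B'` are zero.
(2) Dade's conjecture holds for `C` if and only if `S_d(B) ≤ 0` for all `d` in `D` and all `(G, B)` in `C`
with `|G| > n`.
(3) Dade's conjecture holds for `C` if and only if, for these `B` and `d`, `S_d(B) ≠ 1` and the bounds
`S_d(B) ≤ c_ε |G|^ε` hold.
(4) If these bounds hold, the last nonzero sum `S_d(B)` of every `B` in `C`, if any, is `1` or `-1`.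
(5) If these bounds hold for all `d` and all `(G, B)` in `C` with `|G| > n`, then for every `(G, B)` in
`C` at most one of the sums `S_d(B)` is not zero, and it is `1` or `-1`.
(6) Dade's conjecture holds for `C` if and only if the bounds hold for all `d` and the alternating sums
`∑_σ (-1)^|σ| k(B_σ)` of Knörr and Robinson are zero, for all `(G, B)` in `C` with `|G| > n`.
(7) Let `r` be a prime. If `r` divides `S_d(B)` for all `d` in `D` and all `(G, B)` in `C` with `|G| > n`,
then `r` divides `S_d(B)` for all `d` and all `(G, B)` in `C`. -/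
theorem result (p : ℕ) [Fact p.Prime] (O : ValuationSubring ℂ) (hpO : (p : ℂ) ∈ O.nonunits)
    (C : (G : Type) → Group G → Set (G → ℂ) → Prop)
    (hC : ∀ (G : Type) [i : Group G] (B : Set (G → ℂ)) (G' : Type) [i' : Group G']
      (B' : Set (G' → ℂ)), C G i B → C G' i' B' → C (G × G') inferInstance (bxS B B'))
    (D : Set ℕ) (hD : ∀ a : ℕ, 0 < a → ∃ k : ℕ, 0 < k ∧ k * a ∈ D) (n : ℕ) :
    (∀ (G : Type) [Group G] (Z : Subgroup G) (B : Set (G → ℂ)), Adm p O G Z B →
      S p O 0 Z B = 0 ∧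
      ∀ (G' : Type) [Group G'] (Z' : Subgroup G') (B' : Set (G' → ℂ)), Adm p O G' Z' B' →
        Adm p O (G × G') (Z.prod Z') (bxS B B') ∧
        (∀ d, S p O d (Z.prod Z') (bxS B B') =
          ∑ x ∈ Finset.HasAntidiagonal.antidiagonal d, S p O x.1 Z B * S p O x.2 Z' B') ∧
        ((∀ d, S p O d (Z.prod Z') (bxS B B') = 0) →
          (∀ d, S p O d Z B = 0) ∨ ∀ d, S p O d Z' B' = 0)) ∧
    (Dade p O C ↔ ∀ (G : Type) [i : Group G] (Z : Subgroup G) (B : Set (G → ℂ)), C G i B →
      Adm p O G Z B → n < Nat.card G → ∀ d ∈ D, S p O d Z B ≤ 0) ∧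
    (Dade p O C ↔ Bounds p O C D n ∧
      ∀ (G : Type) [i : Group G] (Z : Subgroup G) (B : Set (G → ℂ)), C G i B →
        Adm p O G Z B → n < Nat.card G → ∀ d ∈ D, S p O d Z B ≠ 1) ∧
    (Bounds p O C D n → ∀ (G : Type) [i : Group G] (Z : Subgroup G) (B : Set (G → ℂ)), C G i B →
      Adm p O G Z B → ∀ d, S p O d Z B ≠ 0 → (∀ e, d < e → S p O e Z B = 0) →
        S p O d Z B = 1 ∨ S p O d Z B = -1) ∧
    (Bounds p O C Set.univ n → ∀ (G : Type) [i : Group G] (Z : Subgroup G) (B : Set (G → ℂ)),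
      C G i B → Adm p O G Z B → (∀ d, |S p O d Z B| ≤ 1) ∧
        ∀ d e, S p O d Z B ≠ 0 → S p O e Z B ≠ 0 → d = e) ∧
    (Dade p O C ↔ Bounds p O C Set.univ n ∧
      ∀ (G : Type) [i : Group G] (Z : Subgroup G) (B : Set (G → ℂ)), C G i B →
        Adm p O G Z B → n < Nat.card G → KR p O Z B = 0) ∧
    (∀ r : ℕ, r.Prime → (∀ (G : Type) [i : Group G] (Z : Subgroup G) (B : Set (G → ℂ)),
      C G i B → Adm p O G Z B → n < Nat.card G → ∀ d ∈ D, (r : ℤ) ∣ S p O d Z B) →
      ∀ (G : Type) [i : Group G] (Z : Subgroup G) (B : Set (G → ℂ)), C G i B →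
        Adm p O G Z B → ∀ d, (r : ℤ) ∣ S p O d Z B) := by
  classical
  let 𝒮 : Pool.Agent.P8H58.DF.Sys := Pool.Agent.P8H58.DF.sys (p := p) hpO (C := C) hC
  -- the coefficients
  have cf : ∀ (G : Type) [Group G] (Z : Subgroup G) (B : Set (G → ℂ)), Adm p O G Z B → ∀ d,
      (Pool.Agent.P8H58.DF.zQ p O Z B).coeff d = S p O d Z B := by
    intro G _ Z B h d
    have := h.fin
    rw [Pool.Agent.P8H58.DF.zQ_coeff, S_eq]
  have ev : ∀ (G : Type) [Group G] (Z : Subgroup G) (B : Set (G → ℂ)), Adm p O G Z B →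
      (Pool.Agent.P8H58.DF.zQ p O Z B).eval 1 = KR p O Z B := by
    intro G _ Z B h
    have := h.fin
    rw [Pool.Agent.P8H58.DF.zQ_eval h.to.normal h.pgr, KR_eq]
  -- from the family to the triples and back
  have up : ∀ (Q : (ℤ[X]) → ℕ → Prop), (∀ x : 𝒮.I, Q (𝒮.P x) (𝒮.g x)) ↔
      ∀ (G : Type) [i : Group G] (Z : Subgroup G) (B : Set (G → ℂ)), C G i B → Adm p O G Z B →
        Q (Pool.Agent.P8H58.DF.zQ p O Z B) (Nat.card G) := by
    intro Q
    constructor
    · intro h G i Z B hc ha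
      exact h ⟨G, i, Z, B, hc, ha.to⟩
    · intro h x
      exact @h x.G x.grp x.Z x.B x.mem (@Adm.of p O x.G x.grp x.Z x.B x.adm)
  have dz : (∀ x : 𝒮.I, 𝒮.P x = 0) → Dade p O C := by
    intro h G i Z B hc ha d
    have h1 := (up (fun P _ => P = 0)).1 h G Z B hc ha
    rw [← cf G Z B ha, h1, Polynomial.coeff_zero]
  have bd : Dade p O C → ∀ D, Bounds p O C D n := by
    intro h D ε _
    refine ⟨0, fun G i Z B hc ha _ d _ => ?_⟩
    rw [h G Z B hc ha d, Int.cast_zero, zero_mul]
  have bd' : ∀ D, Bounds p O C D n → Pool.Agent.P8H58.DF.Sys.Bds 𝒮 D n := by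
    intro D h ε hε
    obtain ⟨c, hc⟩ := h ε hε
    refine ⟨c, (up (fun P g => n < g → ∀ d ∈ D, (P.coeff d : ℝ) ≤ c * (g : ℝ) ^ ε)).2 ?_⟩
    intro G i Z B hB ha hn d hd
    rw [cf G Z B ha]
    exact hc G Z B hB ha hn d hd
  refine ⟨?_, ⟨?_, ?_⟩, ⟨?_, ?_⟩, ?_, ?_, ⟨?_, ?_⟩, ?_⟩
  · intro G _ Z B h
    have := h.fin
    refine ⟨by rw [S_eq]; exact Pool.Agent.P8H58.DF.zDef_at_zero hpO h.to, ?_⟩
    intro G' _ Z' B' h'
    have := h'.fin
    have ha := Adm.of (h.to.prod h'.to)
    have e := Pool.Agent.P8H58.DF.zQ_prod h.to.normal h'.to.normal h.pgr h'.pgr h.block h'.block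
    refine ⟨ha, fun d => ?_, fun h0 => ?_⟩
    · rw [← cf (G × G') (Z.prod Z') (bxS B B') ha, e, Polynomial.coeff_mul]
      refine Finset.sum_congr rfl fun x _ => ?_
      rw [cf G Z B h, cf G' Z' B' h']
    · have h1 : Pool.Agent.P8H58.DF.zQ p O (Z.prod Z') (bxS B B') = 0 := by
        ext d
        rw [cf (G × G') (Z.prod Z') (bxS B B') ha, h0 d, Polynomial.coeff_zero]
      rw [e] at h1
      rcases mul_eq_zero.1 h1 with h2 | h2
      · left
        intro d
        rw [← cf G Z B h, h2, Polynomial.coeff_zero]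
      · right
        intro d
        rw [← cf G' Z' B' h', h2, Polynomial.coeff_zero]
  · intro h G i Z B hc ha _ d _
    rw [h G Z B hc ha d]
  · intro h
    refine dz (Pool.Agent.P8H58.DF.Sys.zero_of_nonpos hD n ?_)
    refine (up (fun P g => n < g → ∀ d ∈ D, P.coeff d ≤ 0)).2 ?_
    intro G i Z B hc ha hn d hd
    rw [cf G Z B ha]
    exact h G Z B hc ha hn d hd
  · intro h
    refine ⟨bd h D, fun G i Z B hc ha _ d _ => ?_⟩
    rw [h G Z B hc ha d]
    exact zero_ne_one
  · rintro ⟨h, h'⟩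
    refine dz (Pool.Agent.P8H58.DF.Sys.zero_of_bds hD n (bd' D h) ?_)
    refine (up (fun P g => n < g → ∀ d ∈ D, P.coeff d ≠ 1)).2 ?_
    intro G i Z B hc ha hn d hd
    rw [cf G Z B ha]
    exact h' G Z B hc ha hn d hd
  · intro h
    have key := (up (fun P _ => P ≠ 0 → P.leadingCoeff ^ 2 = 1)).1
      (Pool.Agent.P8H58.DF.Sys.lead_sq hD n (bd' D h))
    intro G i Z B hc ha d hd he
    have h1 := cf G Z B ha
    have hP : Pool.Agent.P8H58.DF.zQ p O Z B ≠ 0 := by
      intro h0
      apply hd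
      rw [← h1, h0, Polynomial.coeff_zero]
    have h2 := key G Z B hc ha hP
    have h3 : (Pool.Agent.P8H58.DF.zQ p O Z B).natDegree = d := by
      refine le_antisymm (Polynomial.natDegree_le_iff_coeff_eq_zero.2 fun m hm => ?_)
        (Polynomial.le_natDegree_of_ne_zero (by rw [h1]; exact hd))
      rw [h1]
      exact he m hm
    rw [Polynomial.leadingCoeff, h3, h1] at h2
    rw [pow_two] at h2
    exact mul_self_eq_one_iff.1 h2
  · intro h
    have key := (up (fun P _ => (∀ d, |P.coeff d| ≤ 1) ∧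
      ∀ d e, P.coeff d ≠ 0 → P.coeff e ≠ 0 → d = e)).1
        (Pool.Agent.P8H58.DF.Sys.single n (bd' Set.univ h))
    intro G i Z B hc ha
    have h1 := key G Z B hc ha
    simp only [cf G Z B ha] at h1
    exact h1
  · intro h
    refine ⟨bd h Set.univ, fun G i Z B hc ha _ => ?_⟩
    have h1 : Pool.Agent.P8H58.DF.zQ p O Z B = 0 := by
      ext d
      rw [cf G Z B ha, h G Z B hc ha d, Polynomial.coeff_zero]
    rw [← ev G Z B ha, h1, Polynomial.eval_zero]
  · rintro ⟨h, h'⟩
    refine dz (Pool.Agent.P8H58.DF.Sys.zero_of_eval n (bd' Set.univ h) ?_)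
    refine (up (fun P g => n < g → P.eval 1 = 0)).2 ?_
    intro G i Z B hc ha hn
    rw [ev G Z B ha]
    exact h' G Z B hc ha hn
  · intro r hr h
    have key := (up (fun P _ => ∀ d, (r : ℤ) ∣ P.coeff d)).1
      (Pool.Agent.P8H58.DF.Sys.dvd_of_dvd hD n hr
        ((up (fun P g => n < g → ∀ d ∈ D, (r : ℤ) ∣ P.coeff d)).2 (by
          intro G i Z B hc ha hn d hd
          rw [cf G Z B ha]
          exact h G Z B hc ha hn d hd)))
    intro G i Z B hc ha d
    rw [← cf G Z B ha]
    exact key G Z B hc ha d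

end Pool.Agent.Results.MP_3f89b9_al.CentralCore
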