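import Pool.Agent.P8H58.Lgl

/-!
# Dade's ordinary conjecture: perfect groups with few quotients decide

Let `O` be a valuation ring of `ℂ` whose maximal ideal contains `p`; blocks, defect groups and block
induction are defined by central characters modulo the maximal ideal of `O`
(`Pool.Agent.H254R3.IN`). For a block `B` of a finite group `G` let `S_d(B)` be Dade's alternating sum
of the numbers `k^d(B_σ)` over the classes of chains of nontrivial `p`-subgroups.

Let `T` be a nonabelian finite simple group. A group with `T`-quotients is a finite group with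
`O_p(G) = 1` each of whose nontrivial quotients contains a subgroup isomorphic to `T`. Such a group is
perfect. We prove that every block with a nontrivial defect group has the same alternating sums as a
block of a group with `T`-quotients.

Proof. For a semidirect product `V ⋊ H` with an abelian normal `p'`-subgroup `V` and a linear character
`λ` of `V` with the stabiliser `G ≤ H`, let `B'` be the block of `V ⋊ H` above `λ` and the block `B` of
`G`. Then `S_d(B') = S_d(B)` for all `d` (`Pool.Agent.P8H58.FR.blkP_fr`): only the chains consisting of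
normal subgroups of their last term matter; up to conjugation they are chains of `H`; the characters of
the stabilisers are described by the little groups; and the ones above `B'` are those above the
conjugates of `(λ, B)`. One takes for `H` the group of all pairs of a function `f : T^k → G` whose
values have trivial product in `G / G'` and an element of `T^k`. It contains `G` and has only quotients
which contain `T`. For `V` one takes the functions `H → C_q` with product one and for `λ` the product of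
the values of a character over the elements of `G`.

The groups with `T`-quotients are closed under direct products, so that subpolynomial bounds improve to
the bound one, which is transferred to all groups; there one uses wreath products
(`Pool.Agent.N22.DD`).
-/

set_option autoImplicit false

noncomputable section

namespace Pool.Agent.Results.MP_3f89b9_al.PerfectGroupsDecide

open Pool.Agent.Y63.KR (alternatingSum chainSetoid chainStabilizer)
open Pool.Agent.Q90.WR (IndS AdmB dfn)
open Pool.Agent.H254R3.IN (IsBlock IsDefectGroup)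

/-- `k^d(B_σ)` for `G_σ = H`: the number of the irreducible characters `θ` of the subgroup `H` of
`p`-defect `d` with `bl(θ)^G = B`. -/
def kB (p : ℕ) (O : ValuationSubring ℂ) (d : ℕ) {G : Type} [Group G] (B : Set (G → ℂ))
    (H : Subgroup G) : ℕ :=
  Nat.card {θ : H → ℂ // θ ∈ IndS O B (Subtype.val : H → G) ∧
    ∃ n : ℕ, θ 1 = (n : ℂ) ∧ n.factorization p + d = (Nat.card H).factorization p}

/-- Dade's alternating sum `∑_σ (-1)^|σ| k^d(B_σ)` over representatives `σ` of the `G`-classes of
chains of nontrivial `p`-subgroups of `G`, the empty chain included. -/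
def S (p : ℕ) (O : ValuationSubring ℂ) (d : ℕ) {G : Type} [Group G] (B : Set (G → ℂ)) : ℤ :=
  alternatingSum p G (fun H => (kB p O d B H : ℤ))

/-- The alternating sum of Knörr and Robinson, `∑_σ (-1)^|σ| k(B_σ)`; it is the sum of the numbers
`S_d(B)`. -/
def K (p : ℕ) (O : ValuationSubring ℂ) {G : Type} [Group G] (B : Set (G → ℂ)) : ℤ :=
  alternatingSum p G (fun H => (Nat.card (IndS O B (Subtype.val : H → G)) : ℤ))

/-- The weighted alternating sum `∑_σ (-1)^|σ| ∑_θ t ^ d(θ)`; `θ` runs over the irreducible characters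
of `G_σ` with `bl(θ)^G = B`, and `d(θ)` is the `p`-defect of `θ`. -/
def W (p : ℕ) (O : ValuationSubring ℂ) (t : ℂ) {G : Type} [Group G] (B : Set (G → ℂ)) : ℂ :=
  ∑ᶠ c : Quotient (chainSetoid p G), (-1) ^ c.out.1.ncard *
    ∑ᶠ θ ∈ IndS O B (Subtype.val : chainStabilizer c.out.1 → G), t ^ dfn p θ

/-- `G` is finite and in the class `X`, `O_p(G) = 1`, and `B` is a block of `G` with a nontrivial
defect group. -/
def Adm (p : ℕ) (O : ValuationSubring ℂ) (X : ∀ (G : Type) [Group G], Prop) (G : Type) [Group G]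
    (B : Set (G → ℂ)) : Prop := X G ∧ AdmB p O G B

/-- Every nontrivial quotient of `G` has a subgroup isomorphic to `T`. -/
def Quot (T : Type) [Group T] (G : Type) [Group G] : Prop :=
  ∀ (M : Subgroup G) [M.Normal], M ≠ ⊤ → ∃ f : T →* G ⧸ M, Function.Injective f

/-- **Dade's ordinary conjecture: perfect groups with few quotients decide.** Let `X` be a class of
groups closed under isomorphisms, subgroups and extensions which contains the nonabelian finite simple
group `T`. The pairs of `X` are the pairs `(G, B)` of a finite group `G` in `X` with `O_p(G) = 1` and a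
block `B` of `G` with nontrivial defect groups; the `T`-pairs are those for which every nontrivial
quotient of `G` has a subgroup isomorphic to `T`.
(0) Then `G` is perfect.
(1) For every block `B` with nontrivial defect groups of a finite group `G` in `X` there is a `T`-pair
`(Γ, B')` of `X` with `S_d(B') = S_d(B)` for all `d`.
(2) `S_d(B) = 0` for all `d` and all pairs of `X` if and only if `S_d(B) ≤ 0` for all `d` and all
`T`-pairs of `X`.
(3) If `S_d(B) ≤ c_ε |G|^ε` for all `T`-pairs of `X`, all `d` and all `ε > 0`, then for every pair of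
`X` all `S_d(B)` are zero up to at most one, and this one is `1` or `-1`.
(4) `S_d(B) = 0` for all `d` and all pairs of `X` if and only if the bounds in (3) hold and
`∑_d S_d(B)` is even for all `T`-pairs of `X`.
(5) Let `p` be odd and let `T` contain an element of order two. Then `S_d(B) = 0` for all `d` and all
pairs of `X` if and only if the bounds in (3) hold; if and only if
`|W_t(B)| ≤ c_ε |G|^ε min(1, |t|)^{v_p(|G|)}` for all `T`-pairs of `X` and all `ε > 0`, where `t ≠ 0` is
any fixed complex number which is not a root of unity; and, for real `t`, if and only if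
`W_t(B) ≤ c_ε |G|^ε min(1, |t|)^{v_p(|G|)}` for all these pairs. -/
theorem result (p : ℕ) [Fact p.Prime] (O : ValuationSubring ℂ) (hpO : (p : ℂ) ∈ O.nonunits)
    (X : ∀ (G : Type) [Group G], Prop)
    (hiso : ∀ (G K : Type) [Group G] [Group K], X G → Nonempty (G ≃* K) → X K)
    (hsub : ∀ (G : Type) [Group G], X G → ∀ H : Subgroup G, X H)
    (hext : ∀ (G : Type) [Group G] (N : Subgroup G) [N.Normal], X N → X (G ⧸ N) → X G)
    (T : Type) [Group T] [Finite T] [IsSimpleGroup T] (hT : ∃ s t : T, s * t ≠ t * s) (hX : X T) :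
    (∀ (G : Type) [Group G], Quot T G → commutator G = ⊤) ∧
    (∀ (G : Type) [Group G] [Finite G] (B : Set (G → ℂ)) (D : Subgroup G), X G → IsBlock O B →
      IsDefectGroup p O B D → D ≠ ⊥ → ∃ (Γ : Type) (_ : Group Γ) (B' : Set (Γ → ℂ)),
        Adm p O X Γ B' ∧ Quot T Γ ∧ ∀ d, S p O d B' = S p O d B) ∧
    ((∀ (G : Type) [Group G] (B : Set (G → ℂ)), Adm p O X G B → ∀ d, S p O d B = 0) ↔
      ∀ (G : Type) [Group G] (B : Set (G → ℂ)), Adm p O X G B → Quot T G →
        ∀ d, S p O d B ≤ 0) ∧
    ((∀ ε : ℝ, 0 < ε → ∃ c : ℝ, ∀ (G : Type) [Group G] (B : Set (G → ℂ)), Adm p O X G B →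
        Quot T G → ∀ d, (S p O d B : ℝ) ≤ c * (Nat.card G : ℝ) ^ ε) →
      ∀ (G : Type) [Group G] (B : Set (G → ℂ)), Adm p O X G B →
        (∀ d, |S p O d B| ≤ 1) ∧ ∀ d e, S p O d B ≠ 0 → S p O e B ≠ 0 → d = e) ∧
    ((∀ (G : Type) [Group G] (B : Set (G → ℂ)), Adm p O X G B → ∀ d, S p O d B = 0) ↔
      (∀ ε : ℝ, 0 < ε → ∃ c : ℝ, ∀ (G : Type) [Group G] (B : Set (G → ℂ)), Adm p O X G B →
        Quot T G → ∀ d, (S p O d B : ℝ) ≤ c * (Nat.card G : ℝ) ^ ε) ∧
      ∀ (G : Type) [Group G] (B : Set (G → ℂ)), Adm p O X G B → Quot T G → Even (K p O B)) ∧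
    (p ≠ 2 → (∃ s : T, orderOf s = 2) →
      ((∀ (G : Type) [Group G] (B : Set (G → ℂ)), Adm p O X G B → ∀ d, S p O d B = 0) ↔
        ∀ ε : ℝ, 0 < ε → ∃ c : ℝ, ∀ (G : Type) [Group G] (B : Set (G → ℂ)), Adm p O X G B →
          Quot T G → ∀ d, (S p O d B : ℝ) ≤ c * (Nat.card G : ℝ) ^ ε) ∧
      (∀ t : ℂ, t ≠ 0 → (∀ n : ℕ, 0 < n → t ^ n ≠ 1) →
        ((∀ (G : Type) [Group G] (B : Set (G → ℂ)), Adm p O X G B → ∀ d, S p O d B = 0) ↔
          ∀ ε : ℝ, 0 < ε → ∃ c : ℝ, ∀ (G : Type) [Group G] (B : Set (G → ℂ)), Adm p O X G B →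
            Quot T G → ‖W p O t B‖ ≤
              c * (Nat.card G : ℝ) ^ ε * min 1 ‖t‖ ^ (Nat.card G).factorization p)) ∧
      ∀ t : ℝ, t ≠ 0 → t ≠ 1 → t ≠ -1 →
        ((∀ (G : Type) [Group G] (B : Set (G → ℂ)), Adm p O X G B → ∀ d, S p O d B = 0) ↔
          ∀ ε : ℝ, 0 < ε → ∃ c : ℝ, ∀ (G : Type) [Group G] (B : Set (G → ℂ)), Adm p O X G B →
            Quot T G → (W p O (t : ℂ) B).re ≤
              c * (Nat.card G : ℝ) ^ ε * min 1 |t| ^ (Nat.card G).factorization p)) := by
  obtain ⟨s, t, hst⟩ := hT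
  have hE : Pool.Agent.P8H58.FR.Ecl X := ⟨hiso, hsub, hext⟩
  have good : ∀ (G : Type) [Group G] (B : Set (G → ℂ)), Adm p O X G B →
      Pool.Agent.Q90.WR.GoodB O B := fun G _ B h => h.2.good hpO
  have hW0 : ∀ (G : Type) [Group G] [Finite G] (B : Set (G → ℂ)), (∀ d, S p O d B = 0) →
      ∀ t : ℂ, W p O t B = 0 := by
    intro G _ _ B h t
    have := Fintype.ofFinite G
    exact Pool.Agent.N22.DD.Wt_zero_of h t
  have hrp : ∀ (ε : ℝ) (G : Type) [Group G], 0 ≤ 0 * (Nat.card G : ℝ) ^ ε := by
    intro ε G _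
    rw [zero_mul]
  refine ⟨?_, ?_, ⟨fun h G _ B hB _ d => (h G B hB d).le, ?_⟩, ?_, ⟨fun h => ⟨?_, ?_⟩, ?_⟩, ?_⟩
  · intro G _ h
    by_contra hne
    obtain ⟨f, hf⟩ := h (commutator G) hne
    apply hst
    apply hf
    rw [map_mul, map_mul]
    exact mul_comm (G := Abelianization G) (f s) (f t)
  · intro G _ _ B D hG hB hD hne
    have := Fintype.ofFinite G
    obtain ⟨Γ, i, B', h1, _, h2, _⟩ := Pool.Agent.P8H58.FR.to_PX (S := T) hpO hE hst hX G hG B
      ⟨hB, Pool.Agent.Q259.BW.nonunits_of_defect hpO hB hD hne⟩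
    exact ⟨Γ, i, B', ⟨h1.1, h1.2.2⟩, h1.2.1, h2⟩
  · intro h G _ B hB d
    have := hB.2.fin
    exact Pool.Agent.P8H58.FR.dade_of_PX (S := T) hpO hE hst hX
      (fun G _ B hB d => h G B ⟨hB.1, hB.2.2⟩ hB.2.1 d) G hB.1 B (good G B hB) d
  · intro h G _ B hB
    have := hB.2.fin
    refine Pool.Agent.P8H58.FR.single_of_PX (S := T) hpO hE hst hX (fun ε hε => ?_) G hB.1 B
      (good G B hB)
    obtain ⟨c, hc⟩ := h ε hε
    exact ⟨c, fun G _ B hB d => hc G B ⟨hB.1, hB.2.2⟩ hB.2.1 d⟩
  · intro ε _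
    refine ⟨0, fun G _ B hB _ d => ?_⟩
    rw [h G B hB d, Int.cast_zero]
    exact hrp ε G
  · intro G _ B hB _
    have := hB.2.fin
    have := Fintype.ofFinite G
    have h1 : K p O B = 0 := by
      have h2 := hW0 G B (h G B hB) 1
      have h3 : ((K p O B : ℤ) : ℂ) = W p O 1 B := (Pool.Agent.N22.DD.Wt_one).symm
      rw [h2] at h3
      exact_mod_cast h3
    rw [h1]
    exact Even.zero
  · rintro ⟨h, h2⟩ G _ B hB d
    have := hB.2.fin
    refine Pool.Agent.P8H58.FR.dade_of_PX_even (S := T) hpO hE hst hX (fun ε hε => ?_)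
      (fun G _ B hB => (h2 G B ⟨hB.1, hB.2.2⟩ hB.2.1).two_dvd) G hB.1 B (good G B hB) d
    obtain ⟨c, hc⟩ := h ε hε
    exact ⟨c, fun G _ B hB d => hc G B ⟨hB.1, hB.2.2⟩ hB.2.1 d⟩
  · rintro hp2 ⟨u, hu⟩
    have hX2 : X (Multiplicative (ZMod 2)) := by
      have : Fact (Nat.Prime 2) := ⟨Nat.prime_two⟩
      refine hiso _ _ (hsub T hX (Subgroup.zpowers u)) ⟨mulEquivOfPrimeCardEq (p := 2) ?_ ?_⟩
      · rw [Nat.card_zpowers, hu]
      · rw [Nat.card_congr Multiplicative.toAdd, Nat.card_zmod]
    refine ⟨⟨fun h ε _ => ⟨0, fun G _ B hB _ d => ?_⟩, fun h G _ B hB d => ?_⟩,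
      fun t ht0 ht => ⟨fun h ε _ => ⟨0, fun G _ B hB _ => ?_⟩, fun h G _ B hB d => ?_⟩,
      fun t ht0 ht1 ht2 => ⟨fun h ε _ => ⟨0, fun G _ B hB _ => ?_⟩, fun h G _ B hB d => ?_⟩⟩
    · rw [h G B hB d, Int.cast_zero]
      exact hrp ε G
    · refine Pool.Agent.P8H58.FR.dade_of_PX_sub (S := T) hp2 hpO hE hX2 hst hX (fun ε hε => ?_)
        G B hB d
      obtain ⟨c, hc⟩ := h ε hε
      exact ⟨c, fun G _ B hB d => hc G B ⟨hB.1, hB.2.2⟩ hB.2.1 d⟩
    · have := hB.2.fin
      rw [hW0 G B (h G B hB) t]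
      simp
    · refine Pool.Agent.P8H58.FR.dade_of_PX_weight (S := T) hp2 hpO hE hX2 hst hX ht0 ht
        (fun ε hε => ?_) G B hB d
      obtain ⟨c, hc⟩ := h ε hε
      exact ⟨c, fun G _ B hB => hc G B ⟨hB.1, hB.2.2⟩ hB.2.1⟩
    · have := hB.2.fin
      rw [hW0 G B (h G B hB) t]
      simp
    · refine Pool.Agent.P8H58.FR.dade_of_PX_real (S := T) hp2 hpO hE hX2 hst hX ht0 ht1 ht2
        (fun ε hε => ?_) G B hB d
      obtain ⟨c, hc⟩ := h ε hε
      exact ⟨c, fun G _ B hB => hc G B ⟨hB.1, hB.2.2⟩ hB.2.1⟩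

end Pool.Agent.Results.MP_3f89b9_al.PerfectGroupsDecide
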