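import Pool.Agent.P8H58.DS.Bnd

/-!
# Dade's ordinary conjecture: few defects and split extensions of large order decide

Let `O` be a valuation ring of `ℂ` whose maximal ideal contains `p`; blocks, defect groups and block
induction are defined by central characters modulo the maximal ideal of `O`
(`Pool.Agent.H254R3.IN`). For a block `B` of a finite group `G` let `S_d(B)` be Dade's alternating sum
of the numbers `k^d(B_σ)` over the classes of chains of nontrivial `p`-subgroups.

Proof. By the Fong-Reynolds theorem for alternating sums (`Pool.Agent.P8H58.FR.blkP_fr`) every block with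
nontrivial defect groups has the same sums `S_d` as a block of a group `V ⋊ H` in `Few X T q`, which is
larger than the given group; this step can be repeated. Let `P_B = ∑_d S_d(B) t^d`. Then
`P_{B ⊗ B'} = P_B P_B'`. Suppose that `P_B` is not zero, of degree `a` with the leading coefficient `s`.
Here `a > 0`, as there are no characters of defect zero. The sum for the block `B ⊗ ⋯ ⊗ B` of `G^m` and the
defect `m a` is `s^m`. As `D` contains multiples `m a` of `2 a`, and of `2 a N` for all `N`, this number is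
positive, and subpolynomial bounds imply `s = 1` or `s = -1`. The same argument works modulo two. For odd
`p` and the wreath product of `B ⊗ B` with a group of order two the leading coefficient is two, and the
divisibility of all sums by `2 ^ j` implies the divisibility by `2 ^ (j + 1)`.
-/

set_option autoImplicit false

noncomputable section

namespace Pool.Agent.Results.MP_3f89b9_al.SparseDefects

open Pool.Agent.Y63.KR (alternatingSum)
open Pool.Agent.Q90.WR (IndS AdmB)
open Pool.Agent.H254R3.IN (IsBlock IsDefectGroup)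

/-- `k^d(B_σ)` for `G_σ = H`: the number of the irreducible characters `θ` of the subgroup `H` of
`p`-defect `d` with `bl(θ)^G = B`. -/
def kB (p : ℕ) (O : ValuationSubring ℂ) (d : ℕ) {G : Type} [Group G] (B : Set (G → ℂ))
    (H : Subgroup G) : ℕ :=
  Nat.card {θ : H → ℂ // θ ∈ IndS O B (Subtype.val : H → G) ∧
    ∃ n : ℕ, θ 1 = (n : ℂ) ∧ n.factorization p + d = (Nat.card H).factorization p}

/-- Dade's alternating sum `∑_σ (-1)^|σ| k^d(B_σ)` over representatives `σ` of the `G`-classes of
chains of nontrivial `p`-subgroups of `G`, the empty chain included. -/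
def S (p : ℕ) (O : ValuationSubring ℂ) (d : ℕ) {G : Type} [Group G] (B : Set (G → ℂ)) : ℤ :=
  alternatingSum p G (fun H => (kB p O d B H : ℤ))

/-- Dade's ordinary conjecture for the finite groups `G` in `X` with `O_p(G) = 1`: all the sums `S_d(B)`
are zero for the blocks `B` of `G` with nontrivial defect groups. -/
def Dade (p : ℕ) (O : ValuationSubring ℂ) (X : ∀ (G : Type) [Group G], Prop) : Prop :=
  ∀ (G : Type) [Group G] (B : Set (G → ℂ)), X G → AdmB p O G B → ∀ d, S p O d B = 0

/-- `Few X T q`: the finite groups `G` in the class `X` such that every nontrivial quotient of `G` has a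
subgroup isomorphic to `T`, and `G` is the semidirect product of an elementary abelian normal
`q`-subgroup `V` with `C_G(V) = V` and a subgroup `H`. -/
structure Few (X : ∀ (G : Type) [Group G], Prop) (T : Type) [Group T] (q : ℕ) (G : Type) [Group G] :
    Prop where
  /-- finite -/
  fin : Finite G
  /-- in the class -/
  mem : X G
  /-- the quotients -/
  quot : ∀ (M : Subgroup G) [M.Normal], M ≠ ⊤ → ∃ f : T →* G ⧸ M, Function.Injective f
  /-- the normal subgroup -/
  split : ∃ V H : Subgroup G, V.Normal ∧ (∀ v ∈ V, v ^ q = 1) ∧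
    Subgroup.centralizer (V : Set G) = V ∧ V.IsComplement' H

/-- The inequalities `S_d(B) ≤ c |G|^ε`, with `c` depending on `ε > 0` only, for the groups `G` in
`Few X T q` of order larger than `n`, the blocks `B` of `G` with nontrivial defect groups, and `d` in `D`. -/
def Bounds (p : ℕ) (O : ValuationSubring ℂ) (X : ∀ (G : Type) [Group G], Prop) (T : Type) [Group T]
    (q : ℕ) (D : Set ℕ) (n : ℕ) : Prop :=
  ∀ ε : ℝ, 0 < ε → ∃ c : ℝ, ∀ (G : Type) [Group G] (B : Set (G → ℂ)), Few X T q G →
    AdmB p O G B → n < Nat.card G → ∀ d ∈ D, (S p O d B : ℝ) ≤ c * (Nat.card G : ℝ) ^ ε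

/-- **Dade's ordinary conjecture: few defects and split extensions decide.** Let `X` be a class of groups
closed under isomorphisms, subgroups and extensions which contains the nonabelian finite simple group
`T`. Let `q ≠ p` be a prime divisor of the order of `T`, let `D` be a set of integers which contains a
positive multiple of every positive integer, and let `n` be an integer.
(0) The groups in `Few X T q` are perfect and have no nontrivial normal `p`-subgroup.
(1) For every block `B` with nontrivial defect groups of a finite group `G` in `X` there is a block `B'`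
with nontrivial defect groups of a group in `Few X T q` of order larger than `n` with
`S_d(B') = S_d(B)` for all `d`.
(2) Dade's conjecture holds for `X` if and only if `S_d(B) ≤ 0` for all `d` in `D` and all blocks `B` with
nontrivial defect groups of groups in `Few X T q` of order larger than `n`.
(3) Dade's conjecture holds for `X` if and only if, for these `B` and `d`, `S_d(B) ≠ 1` and the bounds
`S_d(B) ≤ c_ε |G|^ε` hold.
(4) Let `p` be odd and let `T` contain an element of order two. Then Dade's conjecture holds for `X` if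
and only if these bounds hold, and if and only if `S_d(B)` is even for these `B` and `d`. -/
theorem result (p : ℕ) [Fact p.Prime] (O : ValuationSubring ℂ) (hpO : (p : ℂ) ∈ O.nonunits)
    (X : ∀ (G : Type) [Group G], Prop)
    (hiso : ∀ (G K : Type) [Group G] [Group K], X G → Nonempty (G ≃* K) → X K)
    (hsub : ∀ (G : Type) [Group G], X G → ∀ H : Subgroup G, X H)
    (hext : ∀ (G : Type) [Group G] (N : Subgroup G) [N.Normal], X N → X (G ⧸ N) → X G)
    (T : Type) [Group T] [Finite T] [IsSimpleGroup T] (hT : ∃ s t : T, s * t ≠ t * s) (hX : X T)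
    (q : ℕ) (hq : q.Prime) (hqp : q ≠ p) (hqT : q ∣ Nat.card T)
    (D : Set ℕ) (hD : ∀ a : ℕ, 0 < a → ∃ k : ℕ, 0 < k ∧ k * a ∈ D) (n : ℕ) :
    (∀ (G : Type) [Group G], Few X T q G → commutator G = ⊤ ∧
      ∀ P : Subgroup G, P.Normal → IsPGroup p P → P = ⊥) ∧
    (∀ (G : Type) [Group G] [Finite G] (B : Set (G → ℂ)) (P : Subgroup G), X G → IsBlock O B →
      IsDefectGroup p O B P → P ≠ ⊥ → ∃ (Γ : Type) (_ : Group Γ) (B' : Set (Γ → ℂ)),
        Few X T q Γ ∧ AdmB p O Γ B' ∧ n < Nat.card Γ ∧ ∀ d, S p O d B' = S p O d B) ∧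
    (Dade p O X ↔ ∀ (G : Type) [Group G] (B : Set (G → ℂ)), Few X T q G → AdmB p O G B →
      n < Nat.card G → ∀ d ∈ D, S p O d B ≤ 0) ∧
    (Dade p O X ↔ Bounds p O X T q D n ∧ ∀ (G : Type) [Group G] (B : Set (G → ℂ)),
      Few X T q G → AdmB p O G B → n < Nat.card G → ∀ d ∈ D, S p O d B ≠ 1) ∧
    (p ≠ 2 → (∃ s : T, orderOf s = 2) →
      (Dade p O X ↔ Bounds p O X T q D n) ∧
      (Dade p O X ↔ ∀ (G : Type) [Group G] (B : Set (G → ℂ)), Few X T q G → AdmB p O G B →
        n < Nat.card G → ∀ d ∈ D, Even (S p O d B))) := by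
  obtain ⟨s, t, hst⟩ := hT
  have hE : Pool.Agent.P8H58.FR.Ecl X := ⟨hiso, hsub, hext⟩
  have few : ∀ (G : Type) [Group G], Pool.Agent.P8H58.DS.SG X T q G → Few X T q G :=
    fun G _ h => ⟨h.2.1, h.1, h.2.2.1, h.2.2.2⟩
  have few' : ∀ (G : Type) [Group G], Few X T q G → Pool.Agent.P8H58.DS.SG X T q G :=
    fun G _ h => ⟨h.mem, h.fin, h.quot, h.split⟩
  have zero : Dade p O X → ∀ (G : Type) [Group G] (B : Set (G → ℂ)), Few X T q G →
      AdmB p O G B → ∀ d, S p O d B = 0 := fun h G _ B hG hB d => h G B hG.mem hB d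
  have bd : Dade p O X → Bounds p O X T q D n := by
    intro h ε _
    refine ⟨0, fun G _ B hG hB _ d _ => ?_⟩
    rw [zero h G B hG hB d, Int.cast_zero, zero_mul]
  have bd' : Bounds p O X T q D n → Pool.Agent.P8H58.DS.Bds p O X T q D n := by
    intro h ε hε
    obtain ⟨c, hc⟩ := h ε hε
    exact ⟨c, fun G _ B hB hn d hd => hc G B (few G hB.1) hB.2 hn d hd⟩
  refine ⟨?_, ?_, ⟨fun h G _ B hG hB _ d _ => (zero h G B hG hB d).le, ?_⟩,
    ⟨fun h => ⟨bd h, fun G _ B hG hB _ d _ => ?_⟩, ?_⟩, ?_⟩
  · intro G _ h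
    obtain ⟨V, H, h1, h2, h3, -⟩ := h.split
    refine ⟨?_, fun P hP hPp => Pool.Agent.P8H58.DS.core_of_cen hq hqp h1 h2 h3 P hP hPp⟩
    by_contra hne
    obtain ⟨f, hf⟩ := h.quot (commutator G) hne
    apply hst
    apply hf
    rw [map_mul, map_mul]
    exact mul_comm (G := Abelianization G) (f s) (f t)
  · intro G _ _ B P hG hB hP hne
    have := Fintype.ofFinite G
    obtain ⟨Γ, i, B', h1, h2, h3⟩ := Pool.Agent.P8H58.DS.to_PS (q := q) hpO hE hst hX hq hqp hqT n hG
      (B := B) ⟨hB, Pool.Agent.Q259.BW.nonunits_of_defect hpO hB hP hne⟩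
    exact ⟨Γ, i, B', few Γ h1.1, h1.2, h2, h3⟩
  · intro h G _ B hG hB d
    exact Pool.Agent.P8H58.DS.dade_of_nonpos_D hpO hE hst hX hq hqp hqT hD n
      (fun G _ B hB hn d hd => h G B (few G hB.1) hB.2 hn d hd) G B ⟨hG, hB⟩ d
  · rw [zero h G B hG hB d]
    exact zero_ne_one
  · rintro ⟨h, h'⟩ G _ B hG hB d
    exact Pool.Agent.P8H58.DS.dade_of_bds_D hpO hE hst hX hq hqp hqT hD n (bd' h)
      (fun G _ B hB hn d hd => h' G B (few G hB.1) hB.2 hn d hd) G B ⟨hG, hB⟩ d
  · rintro hp2 ⟨u, hu⟩
    have hX2 : X (Multiplicative (ZMod 2)) := by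
      have : Fact (Nat.Prime 2) := ⟨Nat.prime_two⟩
      refine hiso _ _ (hsub T hX (Subgroup.zpowers u)) ⟨mulEquivOfPrimeCardEq (p := 2) ?_ ?_⟩
      · rw [Nat.card_zpowers, hu]
      · rw [Nat.card_congr Multiplicative.toAdd, Nat.card_zmod]
    refine ⟨⟨bd, fun h G _ B hG hB d => ?_⟩, ⟨fun h G _ B hG hB _ d _ => ?_,
      fun h G _ B hG hB d => ?_⟩⟩
    · exact Pool.Agent.P8H58.DS.dade_of_bds_odd hp2 hpO hE hX2 hst hX hq hqp hqT hD n (bd' h) G B
        ⟨hG, hB⟩ d
    · rw [zero h G B hG hB d]
      exact Even.zero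
    · exact Pool.Agent.P8H58.DS.dade_of_even_D hp2 hpO hE hX2 hst hX hq hqp hqT hD n
        (fun G _ B hB hn d hd => h G B (few G hB.1) hB.2 hn d hd) G B ⟨hG, hB⟩ d

end Pool.Agent.Results.MP_3f89b9_al.SparseDefects
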